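import Mathlib
import Pool.Agent.H314.ZN.Gen

/-!
# The log-Brunn-Minkowski and the log-Minkowski inequality for origin-symmetric convex bodies with
`n - 2` common reflections, and with a zonoid
-/

set_option autoImplicit false

open MeasureTheory

namespace Pool.Agent.Results.MP_1dedaf_gt.Reflections

/-- Euclidean space `ℝⁿ` -/
abbrev E (n : ℕ) : Type := EuclideanSpace ℝ (Fin n)

variable {n : ℕ}

/-- origin-symmetric convex body -/
structure SymBody (K : Set (E n)) : Prop where
  /-- convex -/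
  convex : Convex ℝ K
  /-- compact -/
  compact : IsCompact K
  /-- with interior points -/
  interior_nonempty : (interior K).Nonempty
  /-- symmetric with respect to the origin -/
  symm : ∀ x ∈ K, -x ∈ K

/-- support function -/
noncomputable def supp (K : Set (E n)) (u : E n) : ℝ := sSup ((fun y => inner ℝ y u) '' K)

/-- the logarithmic combination `(1-t) K +₀ t L` -/
noncomputable def logComb (t : ℝ) (K L : Set (E n)) : Set (E n) :=
  {x | ∀ u : E n, ‖u‖ = 1 → inner ℝ x u ≤ supp K u ^ (1 - t) * supp L u ^ t}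

/-- the logarithmic combination `t_1 K_1 +₀ … +₀ t_q K_q` -/
noncomputable def logCombs {q : ℕ} (t : Fin q → ℝ) (K : Fin q → Set (E n)) : Set (E n) :=
  {x | ∀ u : E n, ‖u‖ = 1 → inner ℝ x u ≤ ∏ i, supp (K i) u ^ t i}

/-- reflection in the coordinate hyperplane `x_j = 0` -/
noncomputable def refl (j : Fin n) (x : E n) : E n :=
  WithLp.toLp 2 (Function.update (WithLp.ofLp x) j (-(WithLp.ofLp x j)))

/-- `K` is invariant under the reflections in all coordinate hyperplanes except the first two -/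
def Inv (K : Set (E n)) : Prop := ∀ j : Fin n, 2 ≤ (j : ℕ) → ∀ x ∈ K, refl j x ∈ K

/-- for some linear automorphism `Φ` of `ℝⁿ`, both `Φ K` and `Φ L` are invariant under the
reflections in all coordinate hyperplanes except the first two -/
def CommonRefl (K L : Set (E n)) : Prop :=
  ∃ Φ : E n ≃ₗ[ℝ] E n, Inv (Φ '' K) ∧ Inv (Φ '' L)

/-- zonotope `∑ [-z_j, z_j]` -/
def IsZonotope (K : Set (E n)) : Prop :=
  ∃ (N : ℕ) (z : Fin N → E n), K = {x | ∃ t : Fin N → ℝ, (∀ j, |t j| ≤ 1) ∧ x = ∑ j, t j • z j}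

/-- zonoid: a limit of zonotopes in the Hausdorff metric -/
def IsZonoid (K : Set (E n)) : Prop :=
  IsCompact K ∧ ∀ ε : ℝ, 0 < ε → ∃ Z : Set (E n), IsZonotope Z ∧ Metric.hausdorffDist K Z < ε

/-- the outer unit normal of `K` at the boundary point `x / ‖x‖_K` (for almost every `x`): the
direction of the gradient at `x` of the norm `‖·‖_K = gauge K` -/
noncomputable def normal (K : Set (E n)) (x : E n) : E n :=
  ‖gradient (gauge K) x‖⁻¹ • gradient (gauge K) x

/-- the cone-volume measure `V_K` of `K`: the image of the Lebesgue measure on `K` under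
`x ↦ normal K x` -/
noncomputable def coneVol (K : Set (E n)) : Measure (E n) :=
  Measure.map (normal K) (volume.restrict K)

theorem SymBody.sb {K : Set (E n)} (h : SymBody K) : H354ZN.SB K := by
  refine ⟨h.convex, h.compact, ?_, h.symm⟩
  obtain ⟨y, hy⟩ := h.interior_nonempty
  have h1 : -y ∈ interior K := by
    have h2 : (Neg.neg ⁻¹' (interior K) : Set (E n)) ⊆ K := fun x hx => by
      have := h.symm _ (interior_subset hx)
      rwa [neg_neg] at this
    have h3 : IsOpen (Neg.neg ⁻¹' (interior K) : Set (E n)) :=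
      isOpen_interior.preimage continuous_neg
    exact interior_maximal h2 h3 (by simpa using hy)
  have h4 := h.convex.interior hy h1 (by norm_num : (0 : ℝ) ≤ 1 / 2)
    (by norm_num : (0 : ℝ) ≤ 1 / 2) (by norm_num)
  simpa using h4

theorem CommonRefl.refl2 {K L : Set (E n)} (h : CommonRefl K L) : H354ZN.Refl2 K L := by
  obtain ⟨Φ, h1, h2⟩ := h
  exact ⟨Φ.toContinuousLinearEquiv, h1, h2⟩

/-- **Theorem.**
(1) Log-Brunn-Minkowski for origin-symmetric convex bodies `K`, `L` in `ℝⁿ`, `n ≥ 2`, with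
`n - 2` common reflections: `V((1-t) K +₀ t L) ≥ V(K)^(1-t) V(L)^t`.
(2) Log-Brunn-Minkowski for arbitrarily many origin-symmetric convex bodies whose logarithmic
combination is a zonoid.
(3) The log-Minkowski inequality
`1/n log (V(L)/V(K)) ≤ 1/V(K) ∫ log (h_L/h_K) dV_K` for origin-symmetric convex bodies `K`, `L` if
`K` is a zonoid, or if `K`, `L` have `n - 2` common reflections. -/
theorem result :
    (∀ (n : ℕ), 2 ≤ n → ∀ K L : Set (E n), SymBody K → SymBody L → CommonRefl K L →
      ∀ t : ℝ, 0 < t → t < 1 →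
        (volume K).toReal ^ (1 - t) * (volume L).toReal ^ t ≤ (volume (logComb t K L)).toReal) ∧
    (∀ (n q : ℕ), 1 ≤ n → ∀ (K : Fin q → Set (E n)) (t : Fin q → ℝ), (∀ i, SymBody (K i)) →
      (∀ i, 0 ≤ t i) → ∑ i, t i = 1 → IsZonoid (logCombs t K) →
        ∏ i, (volume (K i)).toReal ^ t i ≤ (volume (logCombs t K)).toReal) ∧
    (∀ (n : ℕ), 1 ≤ n → ∀ K L : Set (E n), SymBody K → SymBody L →
      (IsZonoid K ∨ (2 ≤ n ∧ CommonRefl K L)) →
        coneVol K Set.univ = volume K ∧ coneVol K (Metric.sphere 0 1)ᶜ = 0 ∧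
        Integrable (fun u => Real.log (supp L u / supp K u)) (coneVol K) ∧
        1 / (n : ℝ) * Real.log ((volume L).toReal / (volume K).toReal) ≤
          1 / (volume K).toReal * ∫ u, Real.log (supp L u / supp K u) ∂(coneVol K)) := by
  refine ⟨?_, ?_, ?_⟩
  · intro n hn K L hK hL hR t ht0 ht1
    have h1 := H354ZN.refl2_BM hn hK.sb hL.sb hR.refl2 t ht0 ht1
    obtain ⟨pK, -⟩ := H354ZN.t_HH n K hK.sb
    obtain ⟨pL, -⟩ := H354ZN.t_HH n L hL.sb
    have h2 := ENNReal.toReal_mono
      (H354ZN.bmr_fin K L t ht0.le ht1.le hK.sb hL.sb pK pL).ne h1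
    rw [ENNReal.toReal_mul, ← ENNReal.toReal_rpow, ← ENNReal.toReal_rpow,
      ← H354ZN.bmr_set K L t ht0.le ht1.le pK pL] at h2
    exact h2
  · intro n q hn K t hK ht0 ht1 hZ
    exact H354ZN.a_BMZ n q K t hn (fun i => (hK i).sb) ht0 ht1 hZ
  · intro n hn K L hK hL h
    have hLM : H354ZN.LM K L := by
      rcases h with h | ⟨h2, h⟩
      · exact H354ZN.zonoid_LM hn hK.sb hL.sb h
      · exact H354ZN.refl2_LM h2 hK.sb hL.sb h.refl2
    exact H354ZN.lmc_of_LM hn hK.sb hL.sb hLM

end Pool.Agent.Results.MP_1dedaf_gt.Reflections
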